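import Pool.Agent.N162.CV.Stm
import Pool.Agent.W619.PQ.Approx

/-!
Parts TR and LB of project CV (helper717; statements and proof of helper162): a local basis of a
function field over `Ω(t)` at the zeros of `t`, and the value of the trace.
-/

set_option autoImplicit false

open FF Pool.Agent.W603.LV IntermediateField Polynomial

namespace Pool.Agent.N717.CV

section

variable {Ω E : Type} [Field Ω] [Field E] [Algebra Ω E]

/-- regular at the zeros of `t` -/
def Rg (t : E) (a : E) : Prop := ∀ v : Place Ω E, 0 < v.ord t → Ge v 0 a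

lemma ord_of_val {v : Place Ω E} {a : E} {c : Ω} (hc : c ≠ 0)
    (h : Ge v 1 (a - algebraMap Ω E c)) : a ≠ 0 ∧ v.ord a = 0 := by
  have hc' : algebraMap Ω E c ≠ 0 := by simpa using hc
  have h0 := v.ord_const hc
  rcases h with h | h
  · have h1 : a = algebraMap Ω E c := sub_eq_zero.mp h
    rw [h1]
    exact ⟨hc', h0⟩
  · by_cases hz : a - algebraMap Ω E c = 0
    · have h1 : a = algebraMap Ω E c := sub_eq_zero.mp hz
      rw [h1]
      exact ⟨hc', h0⟩
    · have h1 := v.ord_add_eq (f := algebraMap Ω E c) (g := a - algebraMap Ω E c) hc' hz (by omega)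
      rw [add_sub_cancel] at h1
      rw [h0] at h1
      exact h1

lemma poly_val {v : Place Ω E} {t : E} (ht : 0 < v.ord t) (p : Polynomial Ω) :
    Ge v 1 (aeval t p - algebraMap Ω E (p.coeff 0)) := by
  have h1 : aeval t p - algebraMap Ω E (p.coeff 0) = t * aeval t p.divX := by
    conv_lhs => rw [← X_mul_divX_add p]
    rw [map_add, map_mul, aeval_X, aeval_C]
    simp
  rw [h1]
  have h2 : Ge v 1 t := Or.inr ht
  have h3 := h2.mul (ge_aeval v (h2.mono (by norm_num : (0 : ℤ) ≤ 1)) p.divX)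
  simpa using h3

lemma poly_fac {r : Polynomial Ω} (hr : r ≠ 0) : ∃ (i : ℕ) (q : Polynomial Ω), r = X ^ i * q ∧ q.coeff 0 ≠ 0 := by
  obtain ⟨q, h1, h2⟩ := exists_eq_pow_rootMultiplicity_mul_and_not_dvd r hr 0
  rw [C_0, sub_zero] at h1 h2
  exact ⟨_, q, h1, fun h => h2 (X_dvd_iff.mpr h)⟩

lemma exists_val {t a : E} (ht0 : t ≠ 0) (ha : a ∈ Ω⟮t⟯) (ha0 : a ≠ 0) :
    ∃ (m : ℤ) (c : Ω), c ≠ 0 ∧ ∀ v : Place Ω E, 0 < v.ord t →
      Ge v 1 (a * t ^ (-m) - algebraMap Ω E c) := by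
  obtain ⟨r, s, rfl⟩ := (IntermediateField.mem_adjoin_simple_iff Ω a).mp ha
  have hr : r ≠ 0 := by
    rintro rfl
    simp at ha0
  have hs : s ≠ 0 := by
    rintro rfl
    simp at ha0
  obtain ⟨i, r', rfl, hr'⟩ := poly_fac hr
  obtain ⟨j, s', rfl, hs'⟩ := poly_fac hs
  refine ⟨(i : ℤ) - j, r'.coeff 0 / s'.coeff 0, div_ne_zero hr' hs', fun v hv => ?_⟩
  have h1 := poly_val hv r'
  have h2 := poly_val hv s'
  have h3 := ord_of_val hs' h2
  have hsc : algebraMap Ω E (s'.coeff 0) ≠ 0 := by simpa using hs'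
  have e1 : aeval t (X ^ i * r') / aeval t (X ^ j * s') * t ^ (-((i : ℤ) - j)) =
      aeval t r' / aeval t s' := by
    rw [map_mul, map_mul, map_pow, map_pow, aeval_X, neg_sub, zpow_sub₀ ht0, zpow_natCast,
      zpow_natCast]
    have hi : t ^ i ≠ 0 := pow_ne_zero _ ht0
    have hj : t ^ j ≠ 0 := pow_ne_zero _ ht0
    have h31 := h3.1
    field_simp
  rw [e1]
  apply Ge.of_mul' (h := aeval t s' * algebraMap Ω E (s'.coeff 0)) (m := 0) (mul_ne_zero h3.1 hsc)
  · rw [v.ord_mul h3.1 hsc, h3.2, v.ord_const hs', add_zero]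
  · have h31 := h3.1
    have e2 : aeval t s' * algebraMap Ω E (s'.coeff 0) *
        (aeval t r' / aeval t s' - algebraMap Ω E (r'.coeff 0 / s'.coeff 0)) =
        (aeval t r' - algebraMap Ω E (r'.coeff 0)) * algebraMap Ω E (s'.coeff 0) -
          (aeval t s' - algebraMap Ω E (s'.coeff 0)) * algebraMap Ω E (r'.coeff 0) := by
      rw [map_div₀]
      field_simp
      ring
    rw [e2, add_zero]
    have h4 := h1.mul (Ge.const (P := v) (s'.coeff 0))
    have h5 := h2.mul (Ge.const (P := v) (r'.coeff 0))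
    rw [add_zero] at h4 h5
    exact h4.sub h5

lemma ord_eq {t a : E} {m : ℤ} {c : Ω} (ht0 : t ≠ 0) (ha0 : a ≠ 0) (hc : c ≠ 0) {v : Place Ω E}
    (h : Ge v 1 (a * t ^ (-m) - algebraMap Ω E c)) : v.ord a = m * v.ord t := by
  have h1 := (ord_of_val hc h).2
  rw [v.ord_mul ha0 (zpow_ne_zero _ ht0), v.ord_zpow] at h1
  linarith

lemma mem_t {t : E} : t ∈ Ω⟮t⟯ := IntermediateField.mem_adjoin_simple_self Ω t

lemma mem_c {t : E} (c : Ω) : algebraMap Ω E c ∈ Ω⟮t⟯ := Ω⟮t⟯.algebraMap_mem c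

/-- the first term of the expansion of a regular element of `Ω(t)` -/
lemma split {t a : E} (v₀ : Place Ω E) (hv₀ : 0 < v₀.ord t) (ha : a ∈ Ω⟮t⟯)
    (hr : Rg (Ω := Ω) t a) : ∃ (c : Ω) (a' : E), a' ∈ Ω⟮t⟯ ∧ Rg (Ω := Ω) t a' ∧
      a = algebraMap Ω E c + t * a' := by
  have ht0 : t ≠ 0 := by
    rintro rfl
    rw [v₀.ord_zero] at hv₀
    omega
  by_cases ha0 : a = 0
  · refine ⟨0, 0, Ω⟮t⟯.zero_mem, fun v _ => Or.inl rfl, ?_⟩
    rw [ha0]
    simp
  obtain ⟨m, c, hc, h⟩ := exists_val ht0 ha ha0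
  have hm : ∀ v : Place Ω E, 0 < v.ord t → v.ord a = m * v.ord t := fun v hv =>
    ord_eq ht0 ha0 hc (h v hv)
  have hm0 : 0 ≤ m := by
    by_contra hneg
    push Not at hneg
    have h1 := (hr v₀ hv₀).resolve_left ha0
    rw [hm v₀ hv₀] at h1
    have := mul_neg_of_neg_of_pos hneg hv₀
    omega
  rcases hm0.eq_or_lt with hm1 | hm1
  · -- the value is `c`
    have hval : ∀ v : Place Ω E, 0 < v.ord t → Ge v 1 (a - algebraMap Ω E c) := by
      intro v hv
      have := h v hv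
      rwa [← hm1, neg_zero, zpow_zero, mul_one] at this
    refine ⟨c, (a - algebraMap Ω E c) / t, Ω⟮t⟯.div_mem (Ω⟮t⟯.sub_mem ha (mem_c c)) mem_t, ?_, ?_⟩
    · by_cases hz : a - algebraMap Ω E c = 0
      · rw [hz, zero_div]
        exact fun v _ => Or.inl rfl
      · obtain ⟨m', c', hc', h'⟩ := exists_val ht0 (Ω⟮t⟯.sub_mem ha (mem_c c)) hz
        intro v hv
        have h1 := ord_eq ht0 hz hc' (h' v hv)
        have h2 := (hval v hv).resolve_left hz
        right
        rw [v.ord_div hz ht0, h1]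
        rw [h1] at h2
        have h3 : 0 < m' := by
          by_contra hneg
          push Not at hneg
          have := mul_nonpos_of_nonpos_of_nonneg hneg hv.le
          omega
        have : v.ord t * 1 ≤ v.ord t * m' := mul_le_mul_of_nonneg_left h3 hv.le
        linarith
    · rw [mul_div_cancel₀ _ ht0]
      ring
  · refine ⟨0, a / t, Ω⟮t⟯.div_mem ha mem_t, fun v hv => ?_, ?_⟩
    · right
      rw [v.ord_div ha0 ht0, hm v hv]
      have : v.ord t * 1 ≤ v.ord t * m := mul_le_mul_of_nonneg_left hm1 hv.le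
      linarith
    · rw [map_zero, zero_add, mul_div_cancel₀ _ ht0]

lemma exists_pow_reg {t a : E} (ht0 : t ≠ 0) (ha : a ∈ Ω⟮t⟯) :
    ∃ k : ℕ, ∀ n : ℕ, k ≤ n → Rg (Ω := Ω) t (t ^ n * a) := by
  by_cases ha0 : a = 0
  · exact ⟨0, fun n _ v _ => Or.inl (by rw [ha0, mul_zero])⟩
  obtain ⟨m, c, hc, h⟩ := exists_val ht0 ha ha0
  refine ⟨m.natAbs, fun n hn v hv => ?_⟩
  right
  rw [v.ord_mul (pow_ne_zero _ ht0) ha0, v.ord_pow, ord_eq ht0 ha0 hc (h v hv), ← add_mul]
  apply mul_nonneg _ hv.le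
  omega

lemma eq_zero_of_div {t a : E} (v₀ : Place Ω E) (hv₀ : 0 < v₀.ord t) (ha : a ∈ Ω⟮t⟯)
    (h : ∀ n : ℕ, Rg (Ω := Ω) t (a / t ^ n)) : a = 0 := by
  have ht0 : t ≠ 0 := by
    rintro rfl
    rw [v₀.ord_zero] at hv₀
    omega
  by_contra ha0
  have h1 := (h ((v₀.ord a).toNat + 1) v₀ hv₀).resolve_left
    (div_ne_zero ha0 (pow_ne_zero _ ht0))
  rw [v₀.ord_div ha0 (pow_ne_zero _ ht0), v₀.ord_pow] at h1
  have h2 : (((v₀.ord a).toNat + 1 : ℕ) : ℤ) * 1 ≤ (((v₀.ord a).toNat + 1 : ℕ) : ℤ) * v₀.ord t :=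
    mul_le_mul_of_nonneg_left hv₀ (by positivity)
  have h3 := Int.self_le_toNat (v₀.ord a)
  push_cast at h1 h2
  linarith

end

/-- The properties of the local basis. -/
structure LBas {Ω E : Type} [Field Ω] [Field E] [Algebra Ω E] (t : E) (S : Finset (Place Ω E))
    (b : ((v : S) × Fin (v.1.ord t).toNat) → E) : Prop where
  key : ∀ (c : ((v : S) × Fin (v.1.ord t).toNat) → Ω) (v : S) (j : Fin (v.1.ord t).toNat),
    Ge v.1 ((j : ℕ) + 1 : ℤ) (∑ i, algebraMap Ω E (c i) * b i) → c ⟨v, j⟩ = 0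
  own : ∀ (v : S) (j : Fin (v.1.ord t).toNat), Ge v.1 ((j : ℕ) : ℤ) (b ⟨v, j⟩)
  other : ∀ (v w : S) (j : Fin (v.1.ord t).toNat), v ≠ w → Ge w.1 (w.1.ord t) (b ⟨v, j⟩)

section

variable {Ω E : Type} [Field Ω] [Field E] [Algebra Ω E]

theorem exists_lbas {t : E} {S : Finset (Place Ω E)} (hS : ∀ v, v ∈ S ↔ 0 < v.ord t) :
    ∃ b, LBas t S b := by
  classical
  set K : ℤ := 1 + ∑ v ∈ S, v.ord t with hK
  have hpos : ∀ v : S, 0 < v.1.ord t := fun v => (hS _).1 v.2
  have hKv : ∀ v : S, v.1.ord t < K := by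
    intro v
    have := Finset.single_le_sum (f := fun v : Place Ω E => v.ord t)
      (fun w hw => ((hS w).1 hw).le) v.2
    omega
  have hy : ∀ v : S, ∃ y : E, Ge v.1 K (y - 1) ∧ ∀ w ∈ S.erase v.1, Ge w K y := fun v =>
    Pool.Agent.W619.PQ.approx_one (S.erase v.1) v.1 (Finset.notMem_erase _ _) 1 K
  choose y hy1 hy2 using hy
  have hp : ∀ v : S, ∃ p : E, p ≠ 0 ∧ v.1.ord p = 1 ∧ ∀ w ∈ S.erase v.1, Ge w 0 p := by
    intro v
    obtain ⟨τ, hτ0, hτ⟩ := v.1.surj
    obtain ⟨p, h1, h2⟩ := Pool.Agent.W619.PQ.approx_one (S.erase v.1) v.1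
      (Finset.notMem_erase _ _) τ 2
    have h3 : p ≠ 0 ∧ v.1.ord p = v.1.ord τ := by
      by_cases hz : p - τ = 0
      · rw [sub_eq_zero.mp hz]
        exact ⟨hτ0, rfl⟩
      · have h4 := h1.resolve_left hz
        have h5 := v.1.ord_add_eq (f := τ) (g := p - τ) hτ0 hz (by omega)
        rwa [add_sub_cancel] at h5
    exact ⟨p, h3.1, h3.2.trans hτ, fun w hw => (h2 w hw).mono (by norm_num)⟩
  choose p hp0 hp1 hp2 using hp
  have hmem : ∀ v w : S, v ≠ w → w.1 ∈ S.erase v.1 := fun v w h =>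
    Finset.mem_erase.2 ⟨fun h' => h (Subtype.ext h').symm, w.2⟩
  have hyv : ∀ v : S, y v ≠ 0 ∧ v.1.ord (y v) = 0 := by
    intro v
    apply ord_of_val (c := (1 : Ω)) one_ne_zero
    rw [map_one]
    have := hKv v
    have := hpos v
    exact (hy1 v).mono (by omega)
  have hown : ∀ (v : S) (j : ℕ), Ge v.1 (j : ℤ) (y v * p v ^ j) := by
    intro v j
    right
    rw [v.1.ord_mul (hyv v).1 (pow_ne_zero _ (hp0 v)), (hyv v).2, v.1.ord_pow, hp1]
    omega
  have hoth : ∀ (v w : S) (j : ℕ), v ≠ w → Ge w.1 K (y v * p v ^ j) := by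
    intro v w j hvw
    have h1 := (hy2 v w.1 (hmem v w hvw)).mul ((hp2 v w.1 (hmem v w hvw)).pow j)
    simpa using h1
  refine ⟨fun i => y i.1 * p i.1 ^ (i.2 : ℕ), ⟨?_, fun v j => hown v j, fun v w j h =>
    (hoth v w j h).mono (hKv w).le⟩⟩
  intro c v
  -- strong induction on `j`
  have main : ∀ (n : ℕ) (j : Fin (v.1.ord t).toNat), (j : ℕ) = n →
      Ge v.1 ((j : ℕ) + 1 : ℤ) (∑ i : (v : S) × Fin (v.1.ord t).toNat,
        algebraMap Ω E (c i) * (y i.1 * p i.1 ^ (i.2 : ℕ))) → c ⟨v, j⟩ = 0 := by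
    intro n
    induction n using Nat.strong_induction_on with
    | _ n ih =>
      intro j hj hge
      have hjK : ((j : ℕ) : ℤ) + 1 ≤ v.1.ord t := by
        have := j.2
        omega
      have hbelow : ∀ j' : Fin (v.1.ord t).toNat, j' < j → c ⟨v, j'⟩ = 0 := by
        intro j' hj'
        refine ih j' (by rw [← hj]; exact hj') j' rfl (hge.mono ?_)
        have : (j' : ℕ) < (j : ℕ) := hj'
        omega
      rw [← Finset.add_sum_erase _ _ (Finset.mem_univ (⟨v, j⟩ : (v : S) × Fin (v.1.ord t).toNat))]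
        at hge
      have hrest : Ge v.1 ((j : ℕ) + 1 : ℤ) (∑ i ∈ Finset.univ.erase
          (⟨v, j⟩ : (v : S) × Fin (v.1.ord t).toNat),
          algebraMap Ω E (c i) * (y i.1 * p i.1 ^ (i.2 : ℕ))) := by
        refine Ge.sum _ _ ?_
        rintro ⟨w, j'⟩ hi
        rw [Finset.mem_erase] at hi
        by_cases hw : w = v
        · subst hw
          rcases lt_trichotomy j' j with h | h | h
          · rw [hbelow j' h, map_zero, zero_mul]
            exact Ge.zero
          · exact absurd (by rw [h]) hi.1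
          · have h1 := (Ge.const (P := w.1) (c ⟨w, j'⟩)).mul (hown w (j' : ℕ))
            rw [zero_add] at h1
            refine h1.mono ?_
            have : (j : ℕ) < (j' : ℕ) := h
            omega
        · have h1 := (Ge.const (P := v.1) (c ⟨w, j'⟩)).mul (hoth w v (j' : ℕ) hw)
          rw [zero_add] at h1
          have := hKv v
          exact h1.mono (by omega)
      have hmain := hge.sub hrest
      rw [add_sub_cancel_right] at hmain
      by_contra hc
      have hc' : algebraMap Ω E (c ⟨v, j⟩) ≠ 0 := by simpa using hc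
      have hne : algebraMap Ω E (c ⟨v, j⟩) * (y v * p v ^ (j : ℕ)) ≠ 0 :=
        mul_ne_zero hc' (mul_ne_zero (hyv v).1 (pow_ne_zero _ (hp0 v)))
      have h1 := hmain.resolve_left hne
      rw [v.1.ord_mul hc' (mul_ne_zero (hyv v).1 (pow_ne_zero _ (hp0 v))), v.1.ord_const hc,
        v.1.ord_mul (hyv v).1 (pow_ne_zero _ (hp0 v)), (hyv v).2, v.1.ord_pow, hp1] at h1
      dsimp only at h1
      omega
  exact fun j h => main j j rfl h

variable {t : E} {S : Finset (Place Ω E)} {b : ((v : S) × Fin (v.1.ord t).toNat) → E}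

lemma LBas.reg (h : LBas t S b) (hS : ∀ v, v ∈ S ↔ 0 < v.ord t) (i) : Rg (Ω := Ω) t (b i) := by
  obtain ⟨v, j⟩ := i
  intro w hw
  by_cases hvw : v = ⟨w, (hS w).2 hw⟩
  · subst hvw
    exact (h.own _ j).mono (by positivity)
  · exact (h.other v ⟨w, (hS w).2 hw⟩ j hvw).mono hw.le

/-- a combination of the basis divisible by `t` vanishes -/
lemma LBas.key' (h : LBas t S b) (hS : ∀ v, v ∈ S ↔ 0 < v.ord t)
    (c : ((v : S) × Fin (v.1.ord t).toNat) → Ω) (g : E) (hg : Rg (Ω := Ω) t g)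
    (he : ∑ i, algebraMap Ω E (c i) * b i = t * g) : ∀ i, c i = 0 := by
  rintro ⟨v, j⟩
  apply h.key c v j
  have hv := (hS v.1).1 v.2
  rw [he]
  have h1 : Ge v.1 (v.1.ord t) t := Or.inr le_rfl
  have h2 := h1.mul (hg v.1 hv)
  refine h2.mono ?_
  have := j.2
  omega

/-- the coefficients of a regular element are regular -/
theorem LBas.coeff_reg (h : LBas t S b) (hS : ∀ v, v ∈ S ↔ 0 < v.ord t)
    (v₀ : Place Ω E) (hv₀ : 0 < v₀.ord t)
    (a : ((v : S) × Fin (v.1.ord t).toNat) → E) (ha : ∀ i, a i ∈ Ω⟮t⟯)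
    (hg : Rg (Ω := Ω) t (∑ i, a i * b i)) : ∀ i, Rg (Ω := Ω) t (a i) := by
  classical
  have ht0 : t ≠ 0 := by
    rintro rfl
    rw [v₀.ord_zero] at hv₀
    omega
  have hex : ∃ k : ℕ, ∀ i, Rg (Ω := Ω) t (t ^ k * a i) := by
    choose k hk using fun i => exists_pow_reg (Ω := Ω) ht0 (ha i)
    exact ⟨∑ i, k i, fun i => hk i _ (Finset.single_le_sum (f := k)
      (fun _ _ => Nat.zero_le _) (Finset.mem_univ i))⟩
  have hmin := Nat.find_spec hex
  set k := Nat.find hex with hk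
  rcases Nat.eq_zero_or_pos k with hk0 | hk0
  · intro i
    have := hmin i
    rwa [hk0, pow_zero, one_mul] at this
  · exfalso
    have hmem : ∀ i, t ^ k * a i ∈ Ω⟮t⟯ := fun i =>
      mul_mem (pow_mem mem_t k) (ha i)
    choose c a' ha' hr' he using fun i => split v₀ hv₀ (hmem i) (hmin i)
    have h1 : ∑ i, algebraMap Ω E (c i) * b i =
        t * (t ^ (k - 1) * (∑ i, a i * b i) - ∑ i, a' i * b i) := by
      have h2 : ∀ i, algebraMap Ω E (c i) * b i = t ^ k * (a i * b i) - t * (a' i * b i) := by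
        intro i
        have := he i
        linear_combination (-b i) * this
      rw [Finset.sum_congr rfl fun i _ => h2 i, Finset.sum_sub_distrib, ← Finset.mul_sum,
        ← Finset.mul_sum, mul_sub, ← mul_assoc, ← pow_succ', Nat.sub_add_cancel hk0]
    have h3 : Rg (Ω := Ω) t (t ^ (k - 1) * (∑ i, a i * b i) - ∑ i, a' i * b i) := by
      intro v hv
      have ht : Ge v 0 t := Or.inr hv.le
      have h4 := (ht.pow (k - 1)).mul (hg v hv)
      rw [mul_zero, add_zero] at h4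
      refine h4.sub (Ge.sum _ _ fun i _ => ?_)
      have := (hr' i v hv).mul (h.reg hS i v hv)
      rwa [add_zero] at this
    have h5 := h.key' hS c _ h3 h1
    apply Nat.find_min hex (m := k - 1) (by omega)
    intro i
    have h6 := he i
    rw [h5 i, map_zero, zero_add] at h6
    have h7 : t ^ (k - 1) * a i = a' i := by
      apply mul_left_cancel₀ ht0
      rw [← h6, ← mul_assoc, ← pow_succ', Nat.sub_add_cancel hk0]
    rw [h7]
    exact hr' i

theorem LBas.linInd (h : LBas t S b) (hS : ∀ v, v ∈ S ↔ 0 < v.ord t)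
    (v₀ : Place Ω E) (hv₀ : 0 < v₀.ord t) : LinearIndependent Ω⟮t⟯ b := by
  classical
  rw [Fintype.linearIndependent_iff]
  intro a ha i
  have ht0 : t ≠ 0 := by
    rintro rfl
    rw [v₀.ord_zero] at hv₀
    omega
  have ha' : ∑ i, ((a i : Ω⟮t⟯) : E) * b i = 0 := by
    rw [← ha]
    exact Finset.sum_congr rfl fun i _ => rfl
  apply Subtype.ext
  apply eq_zero_of_div v₀ hv₀ (a i).2
  intro n
  refine h.coeff_reg hS v₀ hv₀ (fun i => ((a i : Ω⟮t⟯) : E) / t ^ n)
    (fun i => div_mem (a i).2 (pow_mem mem_t n)) ?_ i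
  have e : ∑ i, ((a i : Ω⟮t⟯) : E) / t ^ n * b i = 0 := by
    have : ∀ i, ((a i : Ω⟮t⟯) : E) / t ^ n * b i = (t ^ n)⁻¹ * (((a i : Ω⟮t⟯) : E) * b i) :=
      fun i => by rw [div_eq_mul_inv]; ring
    rw [Finset.sum_congr rfl fun i _ => this i, ← Finset.mul_sum, ha', mul_zero]
  rw [e]
  exact fun v _ => Or.inl rfl

end

section

variable {Ω E : Type} [Field Ω] [Field E] [Algebra Ω E] [IsAlgClosed Ω] [CharZero Ω] [IsFF Ω E]
  {t : E} {S : Finset (Place Ω E)} {b : ((v : S) × Fin (v.1.ord t).toNat) → E}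

lemma card_eq (ht : Transcendental Ω t) (hS : ∀ v, v ∈ S ↔ 0 < v.ord t) :
    Fintype.card ((v : S) × Fin (v.1.ord t).toNat) = Module.finrank Ω⟮t⟯ E := by
  classical
  obtain ⟨S', hS', -, h3⟩ := zeros (k := Ω) (K := E) ht
  have hSS : S' = S := by
    ext v
    rw [hS', hS]
  subst hSS
  rw [← h3, Fintype.card_sigma]
  simp only [Fintype.card_fin]
  rw [← Finset.sum_coe_sort S' (fun v : Place Ω E => (v.ord t).toNat * v.deg)]
  refine Finset.sum_congr rfl fun v _ => ?_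
  rw [deg_one, mul_one]

lemma nonempty_S (ht : Transcendental Ω t) (hS : ∀ v, v ∈ S ↔ 0 < v.ord t) :
    ∃ v₀ : Place Ω E, 0 < v₀.ord t := by
  have h1 := card_eq (E := E) ht hS
  have hfin := IsFF.finite ht
  have h2 : 0 < Module.finrank Ω⟮t⟯ E := Module.finrank_pos
  rw [← h1] at h2
  obtain ⟨⟨v, -⟩⟩ := Fintype.card_pos_iff.1 h2
  exact ⟨v.1, (hS _).1 v.2⟩

/-- the basis -/
theorem exists_basis (ht : Transcendental Ω t) (hS : ∀ v, v ∈ S ↔ 0 < v.ord t) (h : LBas t S b) :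
    ∃ B : Module.Basis ((v : S) × Fin (v.1.ord t).toNat) Ω⟮t⟯ E, ∀ i, B i = b i := by
  obtain ⟨v₀, hv₀⟩ := nonempty_S ht hS
  have hli := h.linInd hS v₀ hv₀
  have hne : Nonempty ((v : S) × Fin (v.1.ord t).toNat) := by
    refine ⟨⟨⟨v₀, (hS _).2 hv₀⟩, ⟨0, ?_⟩⟩⟩
    simp only
    omega
  refine ⟨basisOfLinearIndependentOfCardEqFinrank hli (card_eq ht hS), fun i => ?_⟩
  rw [coe_basisOfLinearIndependentOfCardEqFinrank]

end

theorem lb_ : Pool.Agent.N162.CV.StLB := by
  classical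
  intro Ω E _ _ _ _ _ _ t ht
  obtain ⟨S, hS, -, -⟩ := zeros (k := Ω) (K := E) ht
  obtain ⟨b, hb⟩ := exists_lbas hS
  obtain ⟨v₀, hv₀⟩ := nonempty_S ht hS
  obtain ⟨B, hB⟩ := exists_basis ht hS hb
  let e := Fintype.equivFin ((v : S) × Fin (v.1.ord t).toNat)
  refine ⟨Fintype.card ((v : S) × Fin (v.1.ord t).toNat), fun i => b (e.symm i),
    fun i v hv => hb.reg hS _ v hv, fun g hg => ?_⟩
  have h1 : g = ∑ i, ((B.repr g i : Ω⟮t⟯) : E) * b i := by
    conv_lhs => rw [← B.sum_repr g]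
    refine Finset.sum_congr rfl fun i _ => ?_
    rw [hB]
    rfl
  have h2 := hb.coeff_reg hS v₀ hv₀ (fun i => ((B.repr g i : Ω⟮t⟯) : E))
    (fun i => (B.repr g i).2) (by rw [← h1]; exact hg)
  refine ⟨fun i => B.repr g (e.symm i), fun i v hv => h2 _ v hv, ?_⟩
  conv_lhs => rw [h1]
  exact (Equiv.sum_comp e.symm (fun i => ((B.repr g i : Ω⟮t⟯) : E) * b i)).symm

theorem tr_ : Pool.Agent.N162.CV.StTR := by
  classical
  intro Ω E _ _ _ _ _ _ t ht u val hval S hS v hv
  obtain ⟨b, hb⟩ := exists_lbas hS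
  obtain ⟨v₀, hv₀⟩ := nonempty_S ht hS
  obtain ⟨B, hB⟩ := exists_basis ht hS hb
  have hureg : Rg (Ω := Ω) t u := by
    intro w hw
    have h1 := (hval w hw).mono (by norm_num : (0 : ℤ) ≤ 1)
    have h2 := h1.add (Ge.const (P := w) (val w))
    rwa [sub_add_cancel] at h2
  -- the matrix of `u`
  have hM : ∀ j, u * b j = ∑ i, ((B.repr (u * b j) i : Ω⟮t⟯) : E) * b i := by
    intro j
    conv_lhs => rw [← B.sum_repr (u * b j)]
    refine Finset.sum_congr rfl fun i _ => ?_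
    rw [hB]
    rfl
  have hreg : ∀ j i, Rg (Ω := Ω) t ((B.repr (u * b j) i : Ω⟮t⟯) : E) := by
    intro j
    refine hb.coeff_reg hS v₀ hv₀ (fun i => ((B.repr (u * b j) i : Ω⟮t⟯) : E))
      (fun i => (B.repr (u * b j) i).2) ?_
    rw [← hM j]
    intro w hw
    have h1 := (hureg w hw).mul (hb.reg hS j w hw)
    rwa [add_zero] at h1
  choose c a' ha' hr' he using fun j i =>
    split v₀ hv₀ (B.repr (u * b j) i).2 (hreg j i)
  have hdiag : ∀ j, c j j = val j.1.1 := by
    rintro ⟨w, j₀⟩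
    set j : (v : S) × Fin (v.1.ord t).toNat := ⟨w, j₀⟩ with hj
    have hw := (hS w.1).1 w.2
    have h0 : ∑ i, algebraMap Ω E (c j i - if i = j then val w.1 else 0) * b i =
        (u - algebraMap Ω E (val w.1)) * b j - t * ∑ i, a' j i * b i := by
      have h2 : ∀ i, algebraMap Ω E (c j i - if i = j then val w.1 else 0) * b i =
          ((B.repr (u * b j) i : Ω⟮t⟯) : E) * b i - t * (a' j i * b i) -
            (if i = j then algebraMap Ω E (val w.1) * b i else 0) := by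
        intro i
        have := he j i
        rw [map_sub]
        split_ifs with hij
        · linear_combination (-b i) * this
        · rw [map_zero]
          linear_combination (-b i) * this
      rw [Finset.sum_congr rfl fun i _ => h2 i, Finset.sum_sub_distrib, Finset.sum_sub_distrib,
        ← hM j, ← Finset.mul_sum, Finset.sum_ite_eq' Finset.univ j, if_pos (Finset.mem_univ _)]
      ring
    have h3 : Ge w.1 ((j₀ : ℕ) + 1 : ℤ)
        (∑ i, algebraMap Ω E (c j i - if i = j then val w.1 else 0) * b i) := by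
      rw [h0]
      refine Ge.sub ?_ ?_
      · have h4 := (hval w.1 hw).mul (hb.own w j₀)
        exact h4.mono (by omega)
      · have h4 : Ge w.1 (w.1.ord t) t := Or.inr le_rfl
        have h5 : Ge w.1 0 (∑ i, a' j i * b i) := by
          refine Ge.sum _ _ fun i _ => ?_
          have := (hr' j i w.1 hw).mul (hb.reg hS i w.1 hw)
          rwa [add_zero] at this
        have h6 := h4.mul h5
        refine h6.mono ?_
        have := j₀.2
        omega
    have h7 := hb.key _ w j₀ h3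
    rw [← hj, if_pos rfl, sub_eq_zero] at h7
    exact h7
  have htr : ((Algebra.trace Ω⟮t⟯ E u : Ω⟮t⟯) : E) =
      ∑ j, ((B.repr (u * b j) j : Ω⟮t⟯) : E) := by
    rw [Algebra.trace_eq_matrix_trace B u, Matrix.trace, AddSubmonoidClass.coe_finsetSum]
    refine Finset.sum_congr rfl fun j _ => ?_
    rw [Matrix.diag_apply, Algebra.leftMulMatrix_eq_repr_mul, hB]
  have hsum : (∑ w ∈ S, (w.ord t : Ω) * val w) =
      ∑ j : (v : S) × Fin (v.1.ord t).toNat, val j.1.1 := by
    rw [Fintype.sum_sigma]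
    simp only [Finset.sum_const, Finset.card_univ, Fintype.card_fin, nsmul_eq_mul]
    rw [← Finset.sum_coe_sort S (fun w : Place Ω E => (w.ord t : Ω) * val w)]
    refine Finset.sum_congr rfl fun w _ => ?_
    congr 1
    have h1 : ((w.1.ord t).toNat : ℤ) = w.1.ord t :=
      Int.toNat_of_nonneg ((hS w.1).1 w.2).le
    rw [← Int.cast_natCast, h1]
  rw [htr, hsum, map_sum, ← Finset.sum_sub_distrib]
  refine Ge.sum _ _ fun j _ => ?_
  rw [he j j, hdiag j, add_sub_cancel_left]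
  have h4 : Ge v 1 t := Or.inr hv
  have h5 := h4.mul (hr' j j v hv)
  rwa [add_zero] at h5

end Pool.Agent.N717.CV
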